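import Pool.Agent.helper90.VQ.FE4

/-!
# Row vq:RFF (MP_07c750), first part: the derivatives of the potential at two frames
-/

set_option autoImplicit false

open scoped MatrixGroups ContDiff Topology UpperHalfPlane ComplexConjugate ENNReal
open UpperHalfPlane MeasureTheory Filter Set

namespace Pool.Agent.VQ

open Pool.Agent.RS
open Pool.Agent.VQE (nm)

noncomputable section

/-- composition of a real function with a holomorphic one: derivatives of order one and two -/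
theorem RFF_comp (V : ℂ → ℝ) (m m1 : ℂ → ℂ) (m2 : ℂ) (hV : ∀ᶠ v in 𝓝 (m 0), DifferentiableAt ℝ V v)
    (hV2 : DifferentiableAt ℝ (fderiv ℝ V) (m 0))
    (hm : ∀ᶠ v in 𝓝 (0 : ℂ), HasDerivAt m (m1 v) v) (hm1 : HasDerivAt m1 m2 0) (w w' : ℂ) :
    fderiv ℝ (fun v => V (m v)) 0 w = fderiv ℝ V (m 0) (m1 0 * w) ∧
    fderiv ℝ (fderiv ℝ (fun v => V (m v))) 0 w w' =
      fderiv ℝ (fderiv ℝ V) (m 0) (m1 0 * w) (m1 0 * w') + fderiv ℝ V (m 0) (m2 * w * w') := by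
  have hR : ∀ (f : ℂ → ℂ) (f' v : ℂ), HasDerivAt f f' v → HasFDerivAt f (ContinuousLinearMap.mul ℝ ℂ f') v := by
    intro f f' v h
    have h1 := h.hasFDerivAt.restrictScalars ℝ
    have e1 : ContinuousLinearMap.restrictScalars ℝ (ContinuousLinearMap.toSpanSingleton ℂ f') = ContinuousLinearMap.mul ℝ ℂ f' := by
      ext1 z
      simp [mul_comm]
    rwa [e1] at h1
  have hm0 : HasDerivAt m (m1 0) 0 := hm.self_of_nhds
  have hcont : Tendsto m (𝓝 0) (𝓝 (m 0)) := hm0.continuousAt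
  have hev : (fderiv ℝ (fun v => V (m v))) =ᶠ[𝓝 (0 : ℂ)] fun v => (fderiv ℝ V (m v)).comp (ContinuousLinearMap.mul ℝ ℂ (m1 v)) := by
    filter_upwards [hm, hcont.eventually hV] with v h1 h2
    exact (h2.hasFDerivAt.comp v (hR m (m1 v) v h1)).fderiv
  refine ⟨?_, ?_⟩
  · rw [hev.self_of_nhds]
    rfl
  · have h3 : HasFDerivAt (fun v => fderiv ℝ V (m v)) ((fderiv ℝ (fderiv ℝ V) (m 0)).comp (ContinuousLinearMap.mul ℝ ℂ (m1 0))) 0 :=
      hV2.hasFDerivAt.comp 0 (hR m (m1 0) 0 hm0)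
    have h4 : HasFDerivAt (fun v => ContinuousLinearMap.mul ℝ ℂ (m1 v)) ((ContinuousLinearMap.mul ℝ ℂ).comp (ContinuousLinearMap.mul ℝ ℂ m2)) 0 :=
      (ContinuousLinearMap.mul ℝ ℂ).hasFDerivAt.comp 0 (hR m1 m2 0 hm1)
    have h5 := h3.clm_comp h4
    have h6 : fderiv ℝ (fderiv ℝ (fun v => V (m v))) 0 = _ := (hev.fderiv_eq).trans h5.fderiv
    rw [h6]
    simp only [ContinuousLinearMap.add_apply, ContinuousLinearMap.comp_apply, ContinuousLinearMap.compL_apply,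
      ContinuousLinearMap.flip_apply, ContinuousLinearMap.mul_apply']
    ring

/-- the derivative of the action near `0` -/
theorem RFF_mob (D : SL(2, ℝ)) (P Q R S : ℂ)
    (hP : P = ((D.1 0 1 : ℝ) : ℂ) + ((D.1 1 0 : ℝ) : ℂ) + (((D.1 0 0 : ℝ) : ℂ) - ((D.1 1 1 : ℝ) : ℂ)) * Complex.I)
    (hQ : Q = ((D.1 1 0 : ℝ) : ℂ) - ((D.1 0 1 : ℝ) : ℂ) + (((D.1 0 0 : ℝ) : ℂ) + ((D.1 1 1 : ℝ) : ℂ)) * Complex.I)
    (hR : R = ((D.1 0 1 : ℝ) : ℂ) - ((D.1 1 0 : ℝ) : ℂ) + (((D.1 0 0 : ℝ) : ℂ) + ((D.1 1 1 : ℝ) : ℂ)) * Complex.I)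
    (hS : S = -((D.1 0 1 : ℝ) : ℂ) - ((D.1 1 0 : ℝ) : ℂ) + (((D.1 0 0 : ℝ) : ℂ) - ((D.1 1 1 : ℝ) : ℂ)) * Complex.I)
    (hR0 : R ≠ 0) :
    (∀ᶠ v in 𝓝 (0 : ℂ), HasDerivAt (VQE.PZE_m D) (-16 / (2 * R + v * S) ^ 2) v) ∧
    HasDerivAt (fun v : ℂ => -16 / (2 * R + v * S) ^ 2) (4 * S / R ^ 3) 0 := by
  have hdet : ((D.1 0 0 : ℝ) : ℂ) * ((D.1 1 1 : ℝ) : ℂ) - ((D.1 0 1 : ℝ) : ℂ) * ((D.1 1 0 : ℝ) : ℂ) = 1 := by
    exact_mod_cast VQE.PZE_det D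
  have hI := Complex.I_mul_I
  have hkey : Q * R - P * S = -4 := by
    rw [hP, hQ, hR, hS]
    linear_combination (-4) * hdet + ((((D.1 0 0 : ℝ) : ℂ) + ((D.1 1 1 : ℝ) : ℂ)) ^ 2 - (((D.1 0 0 : ℝ) : ℂ) - ((D.1 1 1 : ℝ) : ℂ)) ^ 2) * hI
  have hm : ∀ v, VQE.PZE_m D v = 2 * (2 * P + v * Q) / (2 * R + v * S) := by
    intro v
    unfold VQE.PZE_m
    rw [hP, hQ, hR, hS]
    congr 1 <;> ring
  have hm' : VQE.PZE_m D = fun v => 2 * (2 * P + v * Q) / (2 * R + v * S) := funext hm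
  have hden : ∀ v : ℂ, HasDerivAt (fun v : ℂ => 2 * R + v * S) S v := by
    intro v
    have := ((hasDerivAt_id v).mul_const S).const_add (2 * R)
    simpa using this
  refine ⟨?_, ?_⟩
  · have hc : ContinuousAt (fun v : ℂ => 2 * R + v * S) 0 := (hden 0).continuousAt
    have h0 : (2 * R + (0 : ℂ) * S) ≠ 0 := by
      rw [zero_mul, add_zero]
      exact mul_ne_zero two_ne_zero hR0
    filter_upwards [hc.eventually_ne h0] with v hv
    rw [hm']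
    have h1 : HasDerivAt (fun v : ℂ => 2 * (2 * P + v * Q)) (2 * Q) v := by
      have := (((hasDerivAt_id v).mul_const Q).const_add (2 * P)).const_mul 2
      simpa using this
    have h2 := h1.div (hden v) hv
    have e1 : (2 * Q * (2 * R + v * S) - 2 * (2 * P + v * Q) * S) / (2 * R + v * S) ^ 2 = -16 / (2 * R + v * S) ^ 2 := by
      congr 1
      linear_combination 4 * hkey
    rw [e1] at h2
    exact h2
  · have h0 : (2 * R + (0 : ℂ) * S) ^ 2 ≠ 0 := by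
      rw [zero_mul, add_zero]
      exact pow_ne_zero _ (mul_ne_zero two_ne_zero hR0)
    have h1 := ((hden 0).pow 2)
    have h2 := (hasDerivAt_const (0 : ℂ) (-16 : ℂ)).div h1 h0
    have h3 : HasDerivAt (fun v : ℂ => -16 / (2 * R + v * S) ^ 2) ((0 * (2 * R + (0 : ℂ) * S) ^ 2 -
      -16 * ((2 : ℕ) * (2 * R + (0 : ℂ) * S) ^ (2 - 1) * S)) / ((2 * R + (0 : ℂ) * S) ^ 2) ^ 2) 0 := h2
    have e1 : (0 * (2 * R + (0 : ℂ) * S) ^ 2 - -16 * ((2 : ℕ) * (2 * R + (0 : ℂ) * S) ^ (2 - 1) * S)) / ((2 * R + (0 : ℂ) * S) ^ 2) ^ 2 = 4 * S / R ^ 3 := by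
      push_cast
      field_simp
      ring
    rw [e1] at h3
    exact h3

theorem RFF_gen {W : Type} [NormedAddCommGroup W] [NormedSpace ℝ W] (F : ℂ → W) (δ : ℝ) (hd : ∀ x, ‖x‖ ≤ 1 → DifferentiableAt ℝ F x)
    (hb : ∀ x, ‖x‖ ≤ 1 → ‖iteratedFDeriv ℝ 1 F x‖ ≤ δ) (v : ℂ) (hv : ‖v‖ ≤ 1) : ‖F v - F 0‖ ≤ δ * ‖v‖ := by
  have h1 := (convex_closedBall (0 : ℂ) 1).norm_image_sub_le_of_norm_fderiv_le (𝕜 := ℝ) (f := F) (C := δ) (x := 0) (y := v)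
    (fun x hx => hd x (by rwa [Metric.mem_closedBall, dist_zero_right] at hx))
    (fun x hx => by
      have := hb x (by rwa [Metric.mem_closedBall, dist_zero_right] at hx)
      rwa [norm_iteratedFDeriv_one] at this)
    (by simp) (by rwa [Metric.mem_closedBall, dist_zero_right])
  rwa [sub_zero] at h1

theorem RFF_it {W : Type} [NormedAddCommGroup W] [NormedSpace ℝ W] (F : ℂ → W) (n : ℕ) (x : ℂ) :
    ‖iteratedFDeriv ℝ n (fderiv ℝ F) x‖ = ‖iteratedFDeriv ℝ (n + 1) F x‖ := norm_iteratedFDeriv_fderiv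

theorem RFF_v3 (Γ : Subgroup SL(2, ℝ)) (δ : ℝ) (B : ℕ → ℝ) (U : ℍ → ℝ) (h : Pot Γ δ B U) (g : SL(2, ℝ)) (v : ℂ) (hv : ‖v‖ ≤ 1) :
    ‖fderiv ℝ (fderiv ℝ (Ug U g)) v - fderiv ℝ (fderiv ℝ (Ug U g)) 0‖ ≤ δ * ‖v‖ := by
  refine RFF_gen (fderiv ℝ (fderiv ℝ (Ug U g))) δ ?_ ?_ v hv
  · intro x hx
    have h2 := FE4_at U h.smooth g x hx
    have h3 := h2.fderiv_right (m := 2) (by norm_cast)
    exact ((h3.fderiv_right (m := 1) (by norm_cast)).differentiableAt (by simp))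
  · intro x hx
    have h1 := h.near g x hx 3 (by norm_num)
    have e1 := RFF_it (fderiv ℝ (Ug U g)) 1 x
    have e2 := RFF_it (Ug U g) 2 x
    have e3 := RFF_it (fun w => Ug U g w - 1) 2 x
    rw [FE4_sub] at e3
    rw [e1]
    linarith

/-- the derivatives of the potential in the frame `g * x` -/
theorem RFF_form (U : ℍ → ℝ) (hU : QU.CD ∞ U) (g x : SL(2, ℝ)) (hx : nm x ≤ 1 / 10) :
    ∃ m2 : ℂ, ‖m2‖ ≤ 3 * nm x ∧ (∀ w, fderiv ℝ (Ug U (g * x)) 0 w = fderiv ℝ (Ug U g) (VQE.ze (VQE.mt x)) (VQE.et (VQE.mt x) * w)) ∧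
      ∀ w w', fderiv ℝ (fderiv ℝ (Ug U (g * x))) 0 w w' =
        fderiv ℝ (fderiv ℝ (Ug U g)) (VQE.ze (VQE.mt x)) (VQE.et (VQE.mt x) * w) (VQE.et (VQE.mt x) * w') +
        fderiv ℝ (Ug U g) (VQE.ze (VQE.mt x)) (m2 * w * w') := by
  obtain ⟨ha, hb, hc, hd⟩ := FE4_nm x
  have hR0' := (VQE.PZE_one x).2
  set R : ℂ := ((x.1 0 1 : ℝ) : ℂ) - ((x.1 1 0 : ℝ) : ℂ) + (((x.1 0 0 : ℝ) : ℂ) + ((x.1 1 1 : ℝ) : ℂ)) * Complex.I with hR
  set S : ℂ := -((x.1 0 1 : ℝ) : ℂ) - ((x.1 1 0 : ℝ) : ℂ) + (((x.1 0 0 : ℝ) : ℂ) - ((x.1 1 1 : ℝ) : ℂ)) * Complex.I with hS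
  have hRe : ((VQE.mt x 0 1 - VQE.mt x 1 0 : ℝ) : ℂ) + ((VQE.mt x 0 0 + VQE.mt x 1 1 : ℝ) : ℂ) * Complex.I = R := by
    rw [hR]
    unfold VQE.mt
    push_cast
    ring
  have hR0 : R ≠ 0 := by rw [← hRe]; exact hR0'
  have hn0 : 0 ≤ nm x := (abs_nonneg _).trans ha
  have ha' := abs_le.1 ha
  have hb' := abs_le.1 hb
  have hc' := abs_le.1 hc
  have hd' := abs_le.1 hd
  have hRn : (9 : ℝ) / 5 ≤ ‖R‖ := by
    refine le_trans ?_ (Complex.abs_im_le_norm _)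
    refine le_trans ?_ (le_abs_self _)
    rw [hR]
    simp only [Complex.add_im, Complex.sub_im, Complex.add_re, Complex.mul_im, Complex.ofReal_re, Complex.ofReal_im, Complex.I_re, Complex.I_im,
      mul_zero, mul_one, zero_add, add_zero, sub_zero]
    linarith
  have hSn : ‖S‖ ≤ 4 * nm x := by
    have e1 : S = ((-(x.1 0 1) - x.1 1 0 : ℝ) : ℂ) + ((x.1 0 0 - x.1 1 1 : ℝ) : ℂ) * Complex.I := by
      rw [hS]
      push_cast
      ring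
    rw [e1]
    refine (FE4_cn _ _).trans ?_
    have e2 : |-(x.1 0 1) - x.1 1 0| ≤ 2 * nm x := by
      rw [abs_le]
      constructor <;> linarith
    have e3 : |x.1 0 0 - x.1 1 1| ≤ 2 * nm x := by
      rw [abs_le]
      constructor <;> linarith
    linarith
  obtain ⟨hm, hm1⟩ := RFF_mob x _ _ R S rfl rfl hR hS hR0
  have hze : VQE.PZE_m x 0 = VQE.ze (VQE.mt x) := (VQE.PZE_deriv x).2
  have hz1 : ‖VQE.ze (VQE.mt x)‖ < 1 := by
    have := (FE4_ze x hx).1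
    linarith
  have hC : ∀ v : ℂ, ‖v‖ ≤ 1 → ContDiffAt ℝ ∞ (Ug U g) v := fun v hv => FE4_at U hU g v hv
  have hcomp : Ug U (g * x) =ᶠ[𝓝 0] fun v => Ug U g (VQE.PZE_m x v) := by
    have h2 : {w : ℂ | ‖w‖ < 2} ∈ 𝓝 (0 : ℂ) := (isOpen_lt continuous_norm continuous_const).mem_nhds (by simp)
    filter_upwards [h2] with v hv
    exact VQE.PZE_Ug U g x v hv
  have hV : ∀ᶠ v in 𝓝 (VQE.PZE_m x 0), DifferentiableAt ℝ (Ug U g) v := by
    rw [hze]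
    have h2 : {w : ℂ | ‖w‖ < 1} ∈ 𝓝 (VQE.ze (VQE.mt x)) := (isOpen_lt continuous_norm continuous_const).mem_nhds hz1
    filter_upwards [h2] with v hv
    exact (hC v (le_of_lt hv)).differentiableAt (by simp)
  have hV2 : DifferentiableAt ℝ (fderiv ℝ (Ug U g)) (VQE.PZE_m x 0) := by
    rw [hze]
    exact ((hC _ hz1.le).fderiv_right (m := 1) (by norm_cast)).differentiableAt (by simp)
  have het : (-16 / (2 * R + (0 : ℂ) * S) ^ 2) = VQE.et (VQE.mt x) := by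
    unfold VQE.et
    rw [hRe]
    field_simp
    ring
  refine ⟨4 * S / R ^ 3, ?_, ?_, ?_⟩
  · rw [norm_div, norm_mul, norm_pow, div_le_iff₀ (by positivity)]
    have e1 : ‖(4 : ℂ)‖ = 4 := by simp
    rw [e1]
    have e2 : (5832 : ℝ) / 1000 ≤ ‖R‖ ^ 3 := by
      calc (5832 : ℝ) / 1000 = (9 / 5) ^ 3 := by norm_num
        _ ≤ ‖R‖ ^ 3 := pow_le_pow_left₀ (by norm_num) hRn 3
    have e3 : 3 * nm x * (5832 / 1000) ≤ 3 * nm x * ‖R‖ ^ 3 := mul_le_mul_of_nonneg_left e2 (by positivity)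
    linarith
  · intro w
    rw [hcomp.fderiv_eq, (RFF_comp (Ug U g) (VQE.PZE_m x) (fun v => -16 / (2 * R + v * S) ^ 2) _ hV hV2 hm hm1 w w).1, hze]
    rw [het]
  · intro w w'
    have h3 : fderiv ℝ (fderiv ℝ (Ug U (g * x))) 0 = fderiv ℝ (fderiv ℝ (fun v => Ug U g (VQE.PZE_m x v))) 0 :=
      (hcomp.fderiv).fderiv_eq
    rw [h3, (RFF_comp (Ug U g) (VQE.PZE_m x) (fun v => -16 / (2 * R + v * S) ^ 2) _ hV hV2 hm hm1 w w').2, hze]
    rw [het]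

/-- the differences of the derivatives -/
theorem RFF_dif (Γ : Subgroup SL(2, ℝ)) (δ : ℝ) (B : ℕ → ℝ) (U : ℍ → ℝ) (h : Pot Γ δ B U) (hδ : 0 < δ) (g x : SL(2, ℝ)) (hx : nm x ≤ 1 / 10) :
    |n1 U (g * x) - n1 U g| ≤ 20 * δ * nm x ∧ |n2 U (g * x) - n2 U g| ≤ 20 * δ * nm x ∧
    ∀ i j, |hess U (g * x) i j - hess U g i j| ≤ 40 * δ * nm x := by
  obtain ⟨m2, hm2, hf1, hf2⟩ := RFF_form U h.smooth g x hx
  obtain ⟨h1, h2⟩ := FE4_ze x hx
  have hn0 : 0 ≤ nm x := (abs_nonneg _).trans (FE4_nm x).1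
  have hz1 : ‖VQE.ze (VQE.mt x)‖ ≤ 1 := by linarith
  have hδn : 0 ≤ δ * nm x := by positivity
  set z : ℂ := VQE.ze (VQE.mt x) with hz
  set t : ℂ := VQE.et (VQE.mt x) with ht
  have htn : ‖t‖ ≤ 8 / 5 := by
    have e1 : t = (t - 1) + 1 := by ring
    rw [e1]
    refine (norm_add_le _ _).trans ?_
    rw [norm_one]
    linarith
  have b1 := FE4_f1 Γ δ B U h g z hz1
  have b2 := FE4_f2 Γ δ B U h g 0 (by simp)
  have c1 := FE4_v2 Γ δ B U h g z hz1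
  have c2 := RFF_v3 Γ δ B U h g z hz1
  have hfirst : ∀ w : ℂ, ‖w‖ ≤ 1 → |fderiv ℝ (Ug U (g * x)) 0 w - fderiv ℝ (Ug U g) 0 w| ≤ 20 * δ * nm x := by
    intro w hw
    rw [hf1 w]
    have e1 : fderiv ℝ (Ug U g) z (t * w) - fderiv ℝ (Ug U g) 0 w = fderiv ℝ (Ug U g) z ((t - 1) * w) + (fderiv ℝ (Ug U g) z - fderiv ℝ (Ug U g) 0) w := by
      rw [sub_mul, one_mul, map_sub, sub_apply]
      ring
    rw [e1]
    refine (abs_add_le _ _).trans ?_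
    have e2 := (fderiv ℝ (Ug U g) z).le_opNorm ((t - 1) * w)
    have e3 := (fderiv ℝ (Ug U g) z - fderiv ℝ (Ug U g) 0).le_opNorm w
    rw [norm_mul, Real.norm_eq_abs] at e2
    rw [Real.norm_eq_abs] at e3
    have e4 : ‖t - 1‖ * ‖w‖ ≤ 6 * nm x := by
      calc ‖t - 1‖ * ‖w‖ ≤ 6 * nm x * 1 := mul_le_mul h2 hw (norm_nonneg _) (by positivity)
        _ = 6 * nm x := mul_one _
    have e5 : ‖fderiv ℝ (Ug U g) z‖ * (‖t - 1‖ * ‖w‖) ≤ δ * (6 * nm x) := mul_le_mul b1 e4 (by positivity) hδ.le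
    have e6 : ‖fderiv ℝ (Ug U g) z - fderiv ℝ (Ug U g) 0‖ * ‖w‖ ≤ δ * ‖z‖ * 1 := mul_le_mul c1 hw (norm_nonneg _) (by positivity)
    have e7 := mul_le_mul_of_nonneg_left h1 hδ.le
    nlinarith
  have hsec : ∀ w w' : ℂ, ‖w‖ ≤ 1 → ‖w'‖ ≤ 1 →
      |fderiv ℝ (fderiv ℝ (Ug U (g * x))) 0 w w' - fderiv ℝ (fderiv ℝ (Ug U g)) 0 w w'| ≤ 40 * δ * nm x := by
    intro w w' hw hw'
    rw [hf2 w w']
    set T : ℂ →L[ℝ] ℂ →L[ℝ] ℝ := fderiv ℝ (fderiv ℝ (Ug U g)) z with hT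
    set T0 : ℂ →L[ℝ] ℂ →L[ℝ] ℝ := fderiv ℝ (fderiv ℝ (Ug U g)) 0 with hT0
    have e1 : T (t * w) (t * w') + fderiv ℝ (Ug U g) z (m2 * w * w') - T0 w w' =
        (T - T0) (t * w) (t * w') + T0 ((t - 1) * w) (t * w') + T0 w ((t - 1) * w') + fderiv ℝ (Ug U g) z (m2 * w * w') := by
      rw [sub_mul, sub_mul, one_mul, one_mul, map_sub, map_sub]
      simp only [sub_apply]
      ring
    rw [e1]
    have d1 : |(T - T0) (t * w) (t * w')| ≤ δ * ‖z‖ * (8 / 5) * (8 / 5) := by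
      have e2 := (T - T0).le_opNorm₂ (t * w) (t * w')
      rw [norm_mul, norm_mul, Real.norm_eq_abs] at e2
      refine e2.trans ?_
      have e3 : ‖t‖ * ‖w‖ ≤ 8 / 5 := by
        calc ‖t‖ * ‖w‖ ≤ 8 / 5 * 1 := mul_le_mul htn hw (norm_nonneg _) (by norm_num)
          _ = 8 / 5 := mul_one _
      have e3' : ‖t‖ * ‖w'‖ ≤ 8 / 5 := by
        calc ‖t‖ * ‖w'‖ ≤ 8 / 5 * 1 := mul_le_mul htn hw' (norm_nonneg _) (by norm_num)
          _ = 8 / 5 := mul_one _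
      exact mul_le_mul (mul_le_mul c2 e3 (by positivity) (by positivity)) e3' (by positivity) (by positivity)
    have d2 : |T0 ((t - 1) * w) (t * w')| ≤ δ * (6 * nm x) * (8 / 5) := by
      have e2 := T0.le_opNorm₂ ((t - 1) * w) (t * w')
      rw [norm_mul, norm_mul, Real.norm_eq_abs] at e2
      refine e2.trans ?_
      have e3 : ‖t - 1‖ * ‖w‖ ≤ 6 * nm x := by
        calc ‖t - 1‖ * ‖w‖ ≤ 6 * nm x * 1 := mul_le_mul h2 hw (norm_nonneg _) (by positivity)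
          _ = 6 * nm x := mul_one _
      have e3' : ‖t‖ * ‖w'‖ ≤ 8 / 5 := by
        calc ‖t‖ * ‖w'‖ ≤ 8 / 5 * 1 := mul_le_mul htn hw' (norm_nonneg _) (by norm_num)
          _ = 8 / 5 := mul_one _
      exact mul_le_mul (mul_le_mul b2 e3 (by positivity) (by positivity)) e3' (by positivity) (by positivity)
    have d3 : |T0 w ((t - 1) * w')| ≤ δ * 1 * (6 * nm x) := by
      have e2 := T0.le_opNorm₂ w ((t - 1) * w')
      rw [norm_mul, Real.norm_eq_abs] at e2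
      refine e2.trans ?_
      have e3 : ‖t - 1‖ * ‖w'‖ ≤ 6 * nm x := by
        calc ‖t - 1‖ * ‖w'‖ ≤ 6 * nm x * 1 := mul_le_mul h2 hw' (norm_nonneg _) (by positivity)
          _ = 6 * nm x := mul_one _
      exact mul_le_mul (mul_le_mul b2 hw (by positivity) (by positivity)) e3 (by positivity) (by positivity)
    have d4 : |fderiv ℝ (Ug U g) z (m2 * w * w')| ≤ δ * (3 * nm x) := by
      have e2 := (fderiv ℝ (Ug U g) z).le_opNorm (m2 * w * w')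
      rw [norm_mul, norm_mul, Real.norm_eq_abs] at e2
      refine e2.trans ?_
      have e3 : ‖m2‖ * ‖w‖ * ‖w'‖ ≤ 3 * nm x * 1 * 1 :=
        mul_le_mul (mul_le_mul hm2 hw (by positivity) (by positivity)) hw' (by positivity) (by positivity)
      refine mul_le_mul b1 ?_ (by positivity) hδ.le
      linarith
    have e7 := mul_le_mul_of_nonneg_left h1 hδ.le
    have t1 := abs_add_le ((T - T0) (t * w) (t * w') + T0 ((t - 1) * w) (t * w') + T0 w ((t - 1) * w')) (fderiv ℝ (Ug U g) z (m2 * w * w'))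
    have t2 := abs_add_le ((T - T0) (t * w) (t * w') + T0 ((t - 1) * w) (t * w')) (T0 w ((t - 1) * w'))
    have t3 := abs_add_le ((T - T0) (t * w) (t * w')) (T0 ((t - 1) * w) (t * w'))
    nlinarith
  have heb : ∀ i, ‖eb i‖ ≤ 1 := by
    intro i
    unfold eb
    split_ifs <;> simp
  refine ⟨?_, ?_, ?_⟩
  · exact hfirst 1 (by simp)
  · exact hfirst Complex.I (by simp)
  · intro i j
    exact hsec (eb i) (eb j) (heb i) (heb j)

end

end Pool.Agent.VQ
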