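import Pool.Agent.helper93.VQ.Spec4c

/-!
# Row vq:RUW (MP_07c750): the weak law on a piece
-/

set_option autoImplicit false

open scoped MatrixGroups ContDiff Topology UpperHalfPlane ComplexConjugate ENNReal
open UpperHalfPlane MeasureTheory Filter Set

namespace Pool.Agent.VQ

open Pool.Agent.RS
open Pool.Agent.RPQ (mean)
open Pool.Agent.VQE (nm)

noncomputable section

theorem RUW_ct {γ : ℝ → SL(2, ℝ)} {x b c : ℝ → ℝ} (h : Cv γ x b c) : Continuous γ := by
  refine Continuous.subtype_mk (f := fun v => (γ v).1) ?_ _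
  refine continuous_pi fun i => continuous_pi fun j => ?_
  exact continuous_iff_continuousAt.2 fun v => (h.der v i j).continuousAt

theorem RUW_scale (v w : ℝ) (hvw : v < w) (P : ℝ → Prop) (a : ℝ)
    (h : volume {s : ℝ | s ∈ Icc (0 : ℝ) 1 ∧ P (v + s * (w - v))} ≤ ENNReal.ofReal a) :
    volume {u : ℝ | u ∈ Icc v w ∧ P u} ≤ ENNReal.ofReal (a * (w - v)) := by
  have hp : 0 < w - v := by linarith
  set S : Set ℝ := {u : ℝ | u ∈ Icc v w ∧ P u} with hS
  have e1 : {s : ℝ | s ∈ Icc (0 : ℝ) 1 ∧ P (v + s * (w - v))} = (fun s => (w - v) * s) ⁻¹' ((fun u => v + u) ⁻¹' S) := by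
    ext s
    change (s ∈ Icc (0 : ℝ) 1 ∧ P (v + s * (w - v))) ↔ (v + (w - v) * s ∈ Icc v w ∧ P (v + (w - v) * s))
    have e2 : v + (w - v) * s = v + s * (w - v) := by ring
    rw [e2]
    constructor
    · rintro ⟨⟨h1, h2⟩, h3⟩
      exact ⟨⟨by nlinarith, by nlinarith⟩, h3⟩
    · rintro ⟨⟨h1, h2⟩, h3⟩
      refine ⟨⟨?_, ?_⟩, h3⟩
      · have : 0 ≤ s * (w - v) := by linarith
        exact nonneg_of_mul_nonneg_left this hp
      · by_contra hc
        push Not at hc
        nlinarith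
  rw [e1, Real.volume_preimage_mul_left hp.ne', measure_preimage_add] at h
  have h1 : volume S = ENNReal.ofReal (w - v) * (ENNReal.ofReal |(w - v)⁻¹| * volume S) := by
    rw [← mul_assoc, ← ENNReal.ofReal_mul hp.le, abs_of_pos (inv_pos.2 hp), mul_inv_cancel₀ hp.ne', ENNReal.ofReal_one, one_mul]
  rw [h1, mul_comm a, ENNReal.ofReal_mul hp.le]
  exact mul_le_mul' le_rfl h

theorem RUW_proof (hRDR : RDR_stmt) : RUW_stmt := by
  intro D F h e v0 l0 T0 E0 E γ x b c ℓ v v' hl0 hl4 hv0 hU hE hR hvv hL1 hL2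
  have hmono : StrictMono ℓ := strictMono_of_deriv_pos fun y => by rw [(hR.dl y).deriv]; exact hR.pos y
  -- the speeds at two points of the piece
  have hcc : ∀ w1 ∈ Icc v v', ∀ w2 ∈ Icc v v', c w1 ≤ 102 / 100 * c w2 := by
    intro w1 h1 w2 h2
    have hlog : |Real.log (c w1) - Real.log (c w2)| ≤ 1 / 100 := by
      rcases le_total w1 w2 with h12 | h12
      · have hm1 := hmono.monotone h1.1
        have hm2 := hmono.monotone h2.2
        have h3 := hR.di w1 w2 h12 (by linarith)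
        rw [abs_sub_comm]
        linarith
      · have hm1 := hmono.monotone h2.1
        have hm2 := hmono.monotone h1.2
        have h3 := hR.di w2 w1 h12 (by linarith)
        linarith
    have hp1 := hR.pos w1
    have hp2 := hR.pos w2
    have h4 : Real.log (c w1) ≤ Real.log (c w2) + 1 / 100 := by
      have := (abs_le.1 hlog).2
      linarith
    have h5 : c w1 ≤ c w2 * Real.exp (1 / 100) := by
      calc c w1 = Real.exp (Real.log (c w1)) := (Real.exp_log hp1).symm
        _ ≤ Real.exp (Real.log (c w2) + 1 / 100) := Real.exp_le_exp.2 h4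
        _ = c w2 * Real.exp (1 / 100) := by rw [Real.exp_add, Real.exp_log hp2]
    have h6 : Real.exp (1 / 100) ≤ 102 / 100 := by
      have := Real.exp_bound_div_one_sub_of_interval (x := 1 / 100) (by norm_num) (by norm_num)
      refine this.trans ?_
      norm_num
    nlinarith
  have hder : ∀ a1 a2 : ℝ, a1 < a2 → ∃ w ∈ Ioo a1 a2, ℓ a2 - ℓ a1 = c w * (a2 - a1) := by
    intro a1 a2 h12
    obtain ⟨w, hw, he⟩ := exists_hasDerivAt_eq_slope ℓ c h12
      (fun y _ => (hR.dl y).continuousAt.continuousWithinAt) (fun y _ => hR.dl y)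
    refine ⟨w, hw, ?_⟩
    rw [he, div_mul_cancel₀ _ (by linarith)]
  obtain ⟨w', hw', hLe⟩ := hder v v' hvv
  have hp : 0 < v' - v := by linarith
  have hUC : UC (4 / l0) (fun s => γ (v + s * (v' - v))) := by
    refine ⟨?_, ?_⟩
    · exact ((RUW_ct hR.toCv).comp (by fun_prop : Continuous fun s : ℝ => v + s * (v' - v))).continuousOn
    · intro s s' hs0 hss hs1
      have hu : v + s * (v' - v) < v + s' * (v' - v) := by nlinarith
      have hu0 : v ≤ v + s * (v' - v) := by nlinarith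
      have hu1 : v + s' * (v' - v) ≤ v' := by nlinarith
      obtain ⟨w, hw, hΛ⟩ := hder _ _ hu
      have hwI : w ∈ Icc v v' := ⟨by linarith [hw.1], by linarith [hw.2]⟩
      have hw'I : w' ∈ Icc v v' := ⟨hw'.1.le, hw'.2.le⟩
      have hm1 := hmono.monotone hu0
      have hm2 := hmono.monotone hu1
      obtain ⟨-, h1, h2⟩ := hRDR γ x b c ℓ hR.toCC _ _ hu.le (by linarith)
      set Λ : ℝ := ℓ (v + s' * (v' - v)) - ℓ (v + s * (v' - v)) with hΛd
      have hd : v + s' * (v' - v) - (v + s * (v' - v)) = (s' - s) * (v' - v) := by ring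
      rw [hd] at hΛ
      have hss' : 0 < s' - s := by linarith
      have hA : Λ ≤ 102 / 100 * ((ℓ v' - ℓ v) * (s' - s)) := by
        have := hcc w hwI w' hw'I
        rw [hΛ, hLe]
        have h3 : 0 < (s' - s) * (v' - v) := mul_pos hss' hp
        nlinarith
      have hB : (ℓ v' - ℓ v) * (s' - s) ≤ 102 / 100 * Λ := by
        have := hcc w' hw'I w hwI
        rw [hΛ, hLe]
        have h3 : 0 < (s' - s) * (v' - v) := mul_pos hss' hp
        nlinarith
      have hΛ0 : 0 < Λ := by rw [hΛ]; exact mul_pos (hR.pos w) (mul_pos hss' hp)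
      rw [abs_le] at h1
      have e4 : (s' - s) / (4 / l0) = l0 * (s' - s) / 4 := by field_simp
      have hl0s : l0 * (s' - s) ≤ (ℓ v' - ℓ v) * (s' - s) := mul_le_mul_of_nonneg_right hL1 hss'.le
      have hl0s' : (ℓ v' - ℓ v) * (s' - s) ≤ 2 * l0 * (s' - s) := mul_le_mul_of_nonneg_right hL2 hss'.le
      refine ⟨?_, ?_, ?_⟩
      · rw [e4]
        change l0 * (s' - s) / 4 ≤ ((γ (v + s * (v' - v)))⁻¹ * γ (v + s' * (v' - v))).1 1 0
        nlinarith [h1.1]
      · change ((γ (v + s * (v' - v)))⁻¹ * γ (v + s' * (v' - v))).1 1 0 ≤ 4 / l0 * (s' - s)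
        have h5 : 3 * l0 ≤ 4 / l0 := by
          rw [le_div_iff₀ hl0]
          nlinarith
        have h6 : 3 * l0 * (s' - s) ≤ 4 / l0 * (s' - s) := mul_le_mul_of_nonneg_right h5 hss'.le
        nlinarith [h1.2]
      · change |((γ (v + s * (v' - v)))⁻¹ * γ (v + s' * (v' - v))).1 0 1| +
          |((γ (v + s * (v' - v)))⁻¹ * γ (v + s' * (v' - v))).1 0 0 - ((γ (v + s * (v' - v)))⁻¹ * γ (v + s' * (v' - v))).1 1 1| ≤
          1 / 10 * ((γ (v + s * (v' - v)))⁻¹ * γ (v + s' * (v' - v))).1 1 0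
        nlinarith [h1.1, h2]
  exact RUW_scale v v' hvv _ v0 (hU E _ hE hUC)

end

end Pool.Agent.VQ
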