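import Pool.Agent.helper26.VQ.RFFa
import Pool.Agent.helper93.VQ.Spec4c

/-!
# Row vq:RFF (MP_07c750): the fields of the flow and their derivatives
-/

set_option autoImplicit false

open scoped MatrixGroups ContDiff Topology UpperHalfPlane ComplexConjugate ENNReal
open UpperHalfPlane MeasureTheory Filter Set

namespace Pool.Agent.VQ

open Pool.Agent.RS
open Pool.Agent.VQE (nm)

noncomputable section

theorem RFF_quot (N N' r r' e1 e2 B : ℝ) (hr : 4 / 5 ≤ r) (hr' : 4 / 5 ≤ r') (h1 : |N' - N| ≤ e1) (h2 : |r' - r| ≤ e2) (hB : |N| ≤ B) :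
    |N' / (2 * r') - N / (2 * r)| ≤ e1 + B * e2 := by
  have hr0 : 0 < r := by linarith
  have hr0' : 0 < r' := by linarith
  have hB0 : 0 ≤ B := (abs_nonneg _).trans hB
  have he1 : 0 ≤ e1 := (abs_nonneg _).trans h1
  have he2 : 0 ≤ e2 := (abs_nonneg _).trans h2
  have e : N' / (2 * r') - N / (2 * r) = (N' - N) / (2 * r') + N * (r - r') / (2 * r * r') := by
    field_simp
    ring
  rw [e]
  refine (abs_add_le _ _).trans (add_le_add ?_ ?_)
  · rw [abs_div, abs_of_pos (show 0 < 2 * r' by linarith), div_le_iff₀ (by linarith)]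
    nlinarith
  · have h3 : 0 < 2 * r * r' := by positivity
    rw [abs_div, abs_of_pos h3, div_le_iff₀ h3, abs_mul, abs_sub_comm r r']
    have h4 : |N| * |r' - r| ≤ B * e2 := mul_le_mul hB h2 (abs_nonneg _) hB0
    have h5 : 1 ≤ 2 * r * r' := by nlinarith
    have h6 : 0 ≤ B * e2 := mul_nonneg hB0 he2
    nlinarith

theorem RFF_quot2 (N N' r r' e1 e2 B : ℝ) (hr : 4 / 5 ≤ r) (hr' : 4 / 5 ≤ r') (h1 : |N' - N| ≤ e1) (h2 : |r' - r| ≤ e2) (hB : |N| ≤ B) :
    |N' / r' - N / r| ≤ 2 * (e1 + B * e2) := by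
  have h := RFF_quot N N' r r' e1 e2 B hr hr' h1 h2 hB
  have hr0 : 0 < r := by linarith
  have hr0' : 0 < r' := by linarith
  have e : N' / r' - N / r = 2 * (N' / (2 * r') - N / (2 * r)) := by
    field_simp
  rw [e, abs_mul, abs_of_pos (show (0 : ℝ) < 2 by norm_num)]
  linarith

theorem RFF_bd (N r B : ℝ) (hr : 4 / 5 ≤ r) (hB : |N| ≤ B) : |N / (2 * r)| ≤ B ∧ |N / r| ≤ 2 * B := by
  have hr0 : 0 < r := by linarith
  have hB0 : 0 ≤ B := (abs_nonneg _).trans hB
  constructor
  · rw [abs_div, abs_of_pos (show 0 < 2 * r by linarith), div_le_iff₀ (by linarith)]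
    nlinarith
  · rw [abs_div, abs_of_pos hr0, div_le_iff₀ hr0]
    nlinarith

/-- a linear form with three coefficients -/
theorem RFF_lin (p q x s e f : ℝ) (hp : |p| ≤ e) (hq : |q| ≤ f) : |p * x - q * s| ≤ e * |x| + f * |s| := by
  have h1 : |p * x| ≤ e * |x| := by rw [abs_mul]; exact mul_le_mul_of_nonneg_right hp (abs_nonneg _)
  have h2 : |q * s| ≤ f * |s| := by rw [abs_mul]; exact mul_le_mul_of_nonneg_right hq (abs_nonneg _)
  have h3 := abs_sub (p * x) (q * s)
  linarith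

theorem RFF_core (Γ : Subgroup SL(2, ℝ)) (δ : ℝ) (B : ℕ → ℝ) (U : ℍ → ℝ) (hU : Pot Γ δ B U) (hδ : 0 < δ) (hδ1 : δ ≤ 1 / 10) (hVUB : VUB_stmt)
    (E : ℝ) (hE : |E| ≤ 1 / 8) (x b c : ℝ) :
    (∀ g : SL(2, ℝ), |dr U E g x b c| ≤ δ * (|x| + |b| + |c|) ∧ |dk U E g x b c| ≤ 4 * δ * (|x| + |b| + |c|)) ∧
    ∀ g y : SL(2, ℝ), nm y ≤ 1 / 10 → |rho U E (g * y) - rho U E g| ≤ nm y / 10 → |kap U E (g * y) - kap U E g| ≤ nm y / 10 →
      |dr U E (g * y) x b c - dr U E g x b c| ≤ 100 * δ * nm y * (|x| + |b| + |c|) ∧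
      |dk U E (g * y) x b c - dk U E g x b c| ≤ 100 * δ * nm y * (|x| + |b| + |c|) := by
  obtain ⟨-, hb, hr, -⟩ := hVUB Γ δ B U hU hδ1
  set s : ℝ := |x| + |b| + |c| with hs
  have hx0 := abs_nonneg x
  have hb0 := abs_nonneg b
  have hc0 := abs_nonneg c
  have hs0 : 0 ≤ s := by positivity
  have hbc : |b + c| ≤ |b| + |c| := abs_add_le _ _
  have hbc' : |b - c| ≤ |b| + |c| := abs_sub _ _
  -- the numerators
  have hN : ∀ g : SL(2, ℝ), |n1 U g * x - n2 U g * (b + c)| ≤ δ * s := by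
    intro g
    obtain ⟨-, h1, h2, -⟩ := hb g
    have := RFF_lin _ _ x (b + c) _ _ h1 h2
    nlinarith
  have hH : ∀ g : SL(2, ℝ), |hess U g 1 0 * x - hess U g 1 1 * (b + c) - (b - c) * n1 U g| ≤ 2 * δ * s := by
    intro g
    obtain ⟨-, h1, -, h3, -⟩ := hb g
    have h4 := RFF_lin _ _ x (b + c) _ _ (h3 1 0) (h3 1 1)
    have h5 : |(b - c) * n1 U g| ≤ |b - c| * δ := by
      rw [abs_mul]
      exact mul_le_mul_of_nonneg_left h1 (abs_nonneg _)
    have h6 := abs_sub (hess U g 1 0 * x - hess U g 1 1 * (b + c)) ((b - c) * n1 U g)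
    nlinarith
  have hdr : ∀ g : SL(2, ℝ), |dr U E g x b c| ≤ δ * s := fun g => (RFF_bd _ _ _ (hr E g hE).1 (hN g)).1
  refine ⟨fun g => ⟨hdr g, ?_⟩, ?_⟩
  · have h1 := (RFF_bd _ _ _ (hr E g hE).1 (hH g)).1
    have h2 := (RFF_bd _ _ _ (hr E g hE).1 (hdr g)).2
    have h3 := (hr E g hE).2.2.2.1
    have h4 : |kap U E g * dr U E g x b c / rho U E g| ≤ δ * (2 * (δ * s)) := by
      rw [mul_div_assoc, abs_mul]
      exact mul_le_mul h3 h2 (abs_nonneg _) hδ.le
    have h5 := abs_sub ((hess U g 1 0 * x - hess U g 1 1 * (b + c) - (b - c) * n1 U g) / (2 * rho U E g)) (kap U E g * dr U E g x b c / rho U E g)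
    have h6 : δ * (2 * (δ * s)) ≤ 2 * δ * s := by nlinarith [mul_nonneg hδ.le hs0]
    unfold dk
    linarith
  · intro g y hy hrd hkd
    have hn0 : 0 ≤ nm y := (abs_nonneg _).trans (FE4_nm y).1
    obtain ⟨d1, d2, d3⟩ := RFF_dif Γ δ B U hU hδ g y hy
    have hδn : 0 ≤ δ * nm y := by positivity
    have hδs : 0 ≤ δ * s := by positivity
    have hδns : 0 ≤ δ * nm y * s := by positivity
    have hNd : |(n1 U (g * y) * x - n2 U (g * y) * (b + c)) - (n1 U g * x - n2 U g * (b + c))| ≤ 20 * δ * nm y * s := by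
      have e1 : (n1 U (g * y) * x - n2 U (g * y) * (b + c)) - (n1 U g * x - n2 U g * (b + c)) =
          (n1 U (g * y) - n1 U g) * x - (n2 U (g * y) - n2 U g) * (b + c) := by ring
      rw [e1]
      have := RFF_lin _ _ x (b + c) _ _ d1 d2
      nlinarith
    have hHd : |(hess U (g * y) 1 0 * x - hess U (g * y) 1 1 * (b + c) - (b - c) * n1 U (g * y)) -
        (hess U g 1 0 * x - hess U g 1 1 * (b + c) - (b - c) * n1 U g)| ≤ 60 * δ * nm y * s := by
      have e1 : (hess U (g * y) 1 0 * x - hess U (g * y) 1 1 * (b + c) - (b - c) * n1 U (g * y)) -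
        (hess U g 1 0 * x - hess U g 1 1 * (b + c) - (b - c) * n1 U g) =
          ((hess U (g * y) 1 0 - hess U g 1 0) * x - (hess U (g * y) 1 1 - hess U g 1 1) * (b + c)) - (b - c) * (n1 U (g * y) - n1 U g) := by ring
      rw [e1]
      have h4 := RFF_lin _ _ x (b + c) _ _ (d3 1 0) (d3 1 1)
      have h5 : |(b - c) * (n1 U (g * y) - n1 U g)| ≤ |b - c| * (20 * δ * nm y) := by
        rw [abs_mul]
        exact mul_le_mul_of_nonneg_left d1 (abs_nonneg _)
      have h6 := abs_sub ((hess U (g * y) 1 0 - hess U g 1 0) * x - (hess U (g * y) 1 1 - hess U g 1 1) * (b + c)) ((b - c) * (n1 U (g * y) - n1 U g))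
      nlinarith
    have hr1 := (hr E g hE).1
    have hr1' := (hr E (g * y) hE).1
    have hdrd : |dr U E (g * y) x b c - dr U E g x b c| ≤ 21 * δ * nm y * s := by
      have h1 := RFF_quot _ _ _ _ _ _ _ hr1 hr1' hNd hrd (hN g)
      unfold dr
      refine h1.trans ?_
      nlinarith
    refine ⟨?_, ?_⟩
    · refine hdrd.trans ?_
      nlinarith
    · have h1 := RFF_quot _ _ _ _ _ _ _ hr1 hr1' hHd hrd (hH g)
      have h2 := RFF_quot2 _ _ _ _ _ _ _ hr1 hr1' hdrd hrd (hdr g)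
      have h3 := (RFF_bd _ _ _ hr1' (hdr (g * y))).2
      have h4 := (hr E g hE).2.2.2.1
      have e1 : dk U E (g * y) x b c - dk U E g x b c =
          ((hess U (g * y) 1 0 * x - hess U (g * y) 1 1 * (b + c) - (b - c) * n1 U (g * y)) / (2 * rho U E (g * y)) -
            (hess U g 1 0 * x - hess U g 1 1 * (b + c) - (b - c) * n1 U g) / (2 * rho U E g)) -
          ((kap U E (g * y) - kap U E g) * (dr U E (g * y) x b c / rho U E (g * y)) +
            kap U E g * (dr U E (g * y) x b c / rho U E (g * y) - dr U E g x b c / rho U E g)) := by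
        unfold dk
        ring
      rw [e1]
      have h5 : |(kap U E (g * y) - kap U E g) * (dr U E (g * y) x b c / rho U E (g * y))| ≤ nm y / 10 * (2 * (δ * s)) := by
        rw [abs_mul]
        exact mul_le_mul hkd h3 (abs_nonneg _) (by positivity)
      have h6 : |kap U E g * (dr U E (g * y) x b c / rho U E (g * y) - dr U E g x b c / rho U E g)| ≤
          δ * (2 * (21 * δ * nm y * s + δ * s * (nm y / 10))) := by
        rw [abs_mul]
        exact mul_le_mul h4 h2 (abs_nonneg _) hδ.le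
      have h7 := abs_sub ((hess U (g * y) 1 0 * x - hess U (g * y) 1 1 * (b + c) - (b - c) * n1 U (g * y)) / (2 * rho U E (g * y)) -
            (hess U g 1 0 * x - hess U g 1 1 * (b + c) - (b - c) * n1 U g) / (2 * rho U E g))
          ((kap U E (g * y) - kap U E g) * (dr U E (g * y) x b c / rho U E (g * y)) +
            kap U E g * (dr U E (g * y) x b c / rho U E (g * y) - dr U E g x b c / rho U E g))
      have h8 := abs_add_le ((kap U E (g * y) - kap U E g) * (dr U E (g * y) x b c / rho U E (g * y)))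
            (kap U E g * (dr U E (g * y) x b c / rho U E (g * y) - dr U E g x b c / rho U E g))
      have h9 : δ * (2 * (21 * δ * nm y * s + δ * s * (nm y / 10))) ≤ 5 * (δ * nm y * s) := by
        have : δ * (δ * nm y * s) ≤ 1 / 10 * (δ * nm y * s) := mul_le_mul_of_nonneg_right hδ1 hδns
        nlinarith
      have h10 : nm y / 10 * (2 * (δ * s)) = (δ * nm y * s) / 5 := by ring
      have h11 : 60 * δ * nm y * s + 2 * δ * s * (nm y / 10) = 60 * (δ * nm y * s) + (δ * nm y * s) / 5 := by ring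
      have h12 : 100 * δ * nm y * s = 100 * (δ * nm y * s) := by ring
      rw [h12]
      linarith

theorem RFF_proof (hFE4 : FE4_stmt) (hVUB : VUB_stmt) (hRCD : RCD_stmt) : RFF_stmt := by
  intro Γ hΓ
  obtain ⟨K0, hK0, hF⟩ := hFE4 Γ hΓ
  obtain ⟨δ0, hδ0, hC⟩ := hRCD Γ hΓ
  set K : ℝ := max K0 100 with hK
  have hK1 : K0 ≤ K := le_max_left _ _
  have hK2 : 100 ≤ K := le_max_right _ _
  have hKpos : 0 < K := by linarith
  refine ⟨K, min (1 / (10 * K)) (δ0 / K), by linarith, lt_min (by positivity) (by positivity), ?_⟩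
  intro δ B D hδ hδ1 hD
  have h1 : K * δ ≤ 1 / 10 := by
    have := hδ1.trans (min_le_left _ _)
    rw [le_div_iff₀ (by positivity)] at this
    linarith
  have h2 : K * δ ≤ δ0 := by
    have := hδ1.trans (min_le_right _ _)
    rw [le_div_iff₀ hKpos] at this
    linarith
  have hKd : 100 * δ ≤ K * δ := mul_le_mul_of_nonneg_right hK2 hδ.le
  have hδ10 : δ ≤ 1 / 10 := by linarith
  -- the first part
  have hFE : FE (K * δ) D := by
    have hK0pos : 0 < K0 := by linarith
    have e1 : K * δ = K0 * (K / K0 * δ) := by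
      field_simp
    have h3 : δ ≤ K / K0 * δ := by
      have : 1 ≤ K / K0 := by
        rw [le_div_iff₀ hK0pos]
        linarith
      nlinarith
    rw [e1]
    refine hF (K / K0 * δ) B D (by positivity) ?_ (FE4_mono Γ δ _ B D hD h3)
    rw [← e1]
    exact h1
  have hE8 : ∀ E : ℝ, |E| ≤ K * δ / 4 → |E| ≤ 1 / 8 := fun E hE => by linarith
  have hsm : ∀ y : SL(2, ℝ), 0 ≤ nm y := fun y => (abs_nonneg _).trans (FE4_nm y).1
  refine ⟨hFE, ?_, ?_, ?_, ?_, ?_⟩
  · intro E g x b c hE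
    have h3 := ((RFF_core Γ δ B D.U hD.pot hδ hδ10 hVUB E (hE8 E hE) x b c).1 g).1
    have h4 : 0 ≤ |x| + |b| + |c| := by positivity
    refine h3.trans (mul_le_mul_of_nonneg_right ?_ h4)
    linarith
  · intro E g x b c hE
    have h3 := ((RFF_core Γ δ B D.U hD.pot hδ hδ10 hVUB E (hE8 E hE) x b c).1 g).2
    have h4 : 0 ≤ |x| + |b| + |c| := by positivity
    refine h3.trans (mul_le_mul_of_nonneg_right ?_ h4)
    linarith
  · intro E g y x b c hE hy
    have hl := hFE.lr E E g y hE hE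
    have hk := hFE.lk E E g y hE hE
    rw [sub_self, abs_zero, mul_zero, add_zero] at hl hk
    have h5 : K * δ * nm y ≤ nm y / 10 := by nlinarith [hsm y]
    have h3 := ((RFF_core Γ δ B D.U hD.pot hδ hδ10 hVUB E (hE8 E hE) x b c).2 g y hy (hl.trans h5) (hk.trans h5)).1
    have h4 : 0 ≤ |x| + |b| + |c| := by positivity
    refine h3.trans (mul_le_mul_of_nonneg_right ?_ h4)
    exact mul_le_mul_of_nonneg_right hKd (hsm y)
  · intro E g y x b c hE hy
    have hl := hFE.lr E E g y hE hE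
    have hk := hFE.lk E E g y hE hE
    rw [sub_self, abs_zero, mul_zero, add_zero] at hl hk
    have h5 : K * δ * nm y ≤ nm y / 10 := by nlinarith [hsm y]
    have h3 := ((RFF_core Γ δ B D.U hD.pot hδ hδ10 hVUB E (hE8 E hE) x b c).2 g y hy (hl.trans h5) (hk.trans h5)).2
    have h4 : 0 ≤ |x| + |b| + |c| := by positivity
    refine h3.trans (mul_le_mul_of_nonneg_right ?_ h4)
    exact mul_le_mul_of_nonneg_right hKd (hsm y)
  · intro E γ x b c hE hcv
    exact hC δ B D (by linarith) hD E γ x b c (by linarith) hcv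

end

end Pool.Agent.VQ
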